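import Pool.Agent.H65.BO.Targets

/-!
# FUS: fusion (`MP_f4fb69_gt`)
-/

set_option autoImplicit false

namespace Pool.Agent.H32.BO

open Set Filter Topology
open Pool.Agent.H65.BO

theorem resid_seq {X : Type} [TopologicalSpace X] [BaireSpace X] {s : Set X} (hs : s ∈ residual X) :
    ∃ V : ℕ → Set X, (∀ n, IsOpen (V n)) ∧ (∀ n, Dense (V n)) ∧ Antitone V ∧ (⋂ n, V n) ⊆ s := by
  obtain ⟨t, hts, htG, htd⟩ := mem_residual.mp hs
  obtain ⟨f, hf, hft⟩ := isGδ_iff_eq_iInter_nat.mp htG
  refine ⟨fun n => ⋂ j ∈ Finset.range (n + 1), f j, fun n => ?_, fun n => ?_, ?_, ?_⟩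
  · exact isOpen_biInter_finset fun j _ => hf j
  · refine htd.mono fun x hx => ?_
    rw [hft] at hx
    exact mem_iInter₂.mpr fun j _ => mem_iInter.mp hx j
  · intro a b hab x hx
    rw [mem_iInter₂] at hx ⊢
    intro j hj
    exact hx j (Finset.mem_range.mpr (by
      have := Finset.mem_range.mp hj
      omega))
  · intro x hx
    apply hts
    rw [hft]
    refine mem_iInter.mpr fun j => ?_
    have := mem_iInter.mp hx j
    exact mem_iInter₂.mp this j (Finset.mem_range.mpr (Nat.lt_succ_self j))

/-- the requirement for the pair of nodes `L, M` at level `n` -/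
def Dd (V : Set C → ℕ → Set (C × C)) (β : List Bool → Set C) (n : ℕ) :
    List Bool → List Bool → Set (C × C)
  | _ :: l, _ :: m => by
      classical
      exact if l = m then V (β l) n else Dd V β n l m
  | _, _ => univ

theorem Dd_eq (V : Set C → ℕ → Set (C × C)) (β : List Bool → Set C) (n : ℕ) (x y : Bool)
    (l : List Bool) : Dd V β n (x :: l) (y :: l) = V (β l) n := by
  simp [Dd]

theorem Dd_ne (V : Set C → ℕ → Set (C × C)) (β : List Bool → Set C) (n : ℕ) (x y : Bool)
    (l m : List Bool) (h : l ≠ m) : Dd V β n (x :: l) (y :: m) = Dd V β n l m := by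
  simp [Dd, h]

theorem Dd_open (V : Set C → ℕ → Set (C × C)) (hV : ∀ B n, IsOpen (V B n) ∧ Dense (V B n))
    (β : List Bool → Set C) (n : ℕ) : ∀ L M : List Bool,
    IsOpen (Dd V β n L M) ∧ Dense (Dd V β n L M)
  | [], _ => by simp [Dd]
  | _ :: _, [] => by simp [Dd]
  | x :: l, y :: m => by
    by_cases h : l = m
    · subst h
      rw [Dd_eq]
      exact hV _ _
    · rw [Dd_ne _ _ _ _ _ _ _ h]
      exact Dd_open V hV β n l m

theorem Dd_congr (V : Set C → ℕ → Set (C × C)) (β β' : List Bool → Set C) (n k : ℕ)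
    (h : ∀ l : List Bool, l.length ≤ k → β l = β' l) : ∀ L M : List Bool, L.length ≤ k + 1 →
    Dd V β n L M = Dd V β' n L M
  | [], _, _ => by simp [Dd]
  | _ :: _, [], _ => by simp [Dd]
  | x :: l, y :: m, hL => by
    rw [List.length_cons] at hL
    by_cases hlm : l = m
    · subst hlm
      rw [Dd_eq, Dd_eq, h l (by omega)]
    · rw [Dd_ne _ _ _ _ _ _ _ hlm, Dd_ne _ _ _ _ _ _ _ hlm]
      exact Dd_congr V β β' n k h l m (by omega)

/-- finitely many requirements -/
theorem shrink (D : List Bool → List Bool → Set (C × C))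
    (hD : ∀ L M, IsOpen (D L M) ∧ Dense (D L M)) (S : Finset (List Bool × List Bool))
    (hS : ∀ p ∈ S, p.1 ≠ p.2) (β : List Bool → Set C)
    (hβ : ∀ l, IsOpen (β l) ∧ (β l).Nonempty) :
    ∃ γ : List Bool → Set C, (∀ l, γ l ⊆ β l) ∧ (∀ l, IsOpen (γ l) ∧ (γ l).Nonempty) ∧
      ∀ p ∈ S, γ p.1 ×ˢ γ p.2 ⊆ D p.1 p.2 := by
  classical
  induction S using Finset.induction_on with
  | empty => exact ⟨β, fun l => subset_rfl, hβ, fun p hp => absurd hp (Finset.notMem_empty p)⟩
  | insert p S _ ih =>
    obtain ⟨γ, h1, h2, h3⟩ := ih fun q hq => hS q (Finset.mem_insert_of_mem hq)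
    have hp := hS p (Finset.mem_insert_self p S)
    obtain ⟨hDo, hDd⟩ := hD p.1 p.2
    have hO : IsOpen (γ p.1 ×ˢ γ p.2) := (h2 p.1).1.prod (h2 p.2).1
    have hN : (γ p.1 ×ˢ γ p.2).Nonempty := (h2 p.1).2.prod (h2 p.2).2
    obtain ⟨z, hz1, hz2⟩ := hDd.inter_open_nonempty _ hO hN
    obtain ⟨A, B, hA, hB, hzA, hzB, hAB⟩ := isOpen_prod_iff.mp hDo z.1 z.2 hz2
    refine ⟨Function.update (Function.update γ p.1 (A ∩ γ p.1)) p.2 (B ∩ γ p.2), ?_, ?_, ?_⟩
    · intro l
      by_cases hl2 : l = p.2
      · subst hl2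
        rw [Function.update_self]
        exact inter_subset_right.trans (h1 _)
      · rw [Function.update_of_ne hl2]
        by_cases hl1 : l = p.1
        · subst hl1
          rw [Function.update_self]
          exact inter_subset_right.trans (h1 _)
        · rw [Function.update_of_ne hl1]
          exact h1 l
    · intro l
      by_cases hl2 : l = p.2
      · subst hl2
        rw [Function.update_self]
        exact ⟨hB.inter (h2 _).1, ⟨z.2, hzB, hz1.2⟩⟩
      · rw [Function.update_of_ne hl2]
        by_cases hl1 : l = p.1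
        · subst hl1
          rw [Function.update_self]
          exact ⟨hA.inter (h2 _).1, ⟨z.1, hzA, hz1.1⟩⟩
        · rw [Function.update_of_ne hl1]
          exact h2 l
    · have hle : ∀ l, Function.update (Function.update γ p.1 (A ∩ γ p.1)) p.2 (B ∩ γ p.2) l ⊆
          γ l := by
        intro l
        by_cases hl2 : l = p.2
        · subst hl2
          rw [Function.update_self]
          exact inter_subset_right
        · rw [Function.update_of_ne hl2]
          by_cases hl1 : l = p.1
          · subst hl1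
            rw [Function.update_self]
            exact inter_subset_right
          · rw [Function.update_of_ne hl1]
      intro q hq
      rcases Finset.mem_insert.mp hq with rfl | hq
      · rw [Function.update_self, Function.update_of_ne hp, Function.update_self]
        exact (prod_mono inter_subset_left inter_subset_left).trans hAB
      · exact (prod_mono (hle _) (hle _)).trans (h3 q hq)

theorem pre_length (b : C) : ∀ n, (pre b n).length = n
  | 0 => rfl
  | n + 1 => by
    rw [pre, List.length_cons, pre_length b n]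

theorem pf_FUS : T_FUS := by
  classical
  intro T U G hU hUne hG hH
  obtain ⟨g, hgo, hgd, _, hgG⟩ := resid_seq hG
  have hsp : ∀ B : Set C, ∃ (B₁ B₂ : Set C) (V : ℕ → Set (C × C)),
      (∀ n, IsOpen (V n) ∧ Dense (V n)) ∧ Antitone V ∧
      (B ⊆ U → IsOpen B → B.Nonempty → B₁ ⊆ B ∧ B₂ ⊆ B ∧ IsOpen B₁ ∧ IsOpen B₂ ∧ B₁.Nonempty ∧
        B₂.Nonempty ∧ ∀ p ∈ ⋂ n, V n, p.1 ∈ B₁ → p.2 ∈ B₂ → p ∈ T) := by
    intro B
    by_cases h : B ⊆ U ∧ IsOpen B ∧ B.Nonempty
    · obtain ⟨B₁, h1, B₂, h2, h3, h4, h5, h6, h7⟩ := hH B h.1 h.2.1 h.2.2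
      obtain ⟨V, hV1, hV2, hV3, hV4⟩ := resid_seq h7
      exact ⟨B₁, B₂, V, fun n => ⟨hV1 n, hV2 n⟩, hV3, fun _ _ _ =>
        ⟨h1, h2, h3, h4, h5, h6, fun p hp => hV4 hp⟩⟩
    · exact ⟨∅, ∅, fun _ => univ, fun _ => ⟨isOpen_univ, dense_univ⟩, antitone_const,
        fun h1 h2 h3 => absurd ⟨h1, h2, h3⟩ h⟩
  choose sp₁ sp₂ V hV hVa hspV using hsp
  -- one level
  have step : ∀ (n : ℕ) (β : List Bool → Set C),
      (∀ l : List Bool, l.length = n → β l ⊆ U ∧ IsOpen (β l) ∧ (β l).Nonempty) →
      ∃ γ : List Bool → Set C, (∀ l : List Bool, l.length ≤ n → γ l = β l) ∧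
        (∀ l : List Bool, l.length = n + 1 → IsClopen (γ l) ∧ (γ l).Nonempty ∧ γ l ⊆ g n) ∧
        (∀ l : List Bool, l.length = n → γ (false :: l) ⊆ sp₁ (β l) ∧
          γ (true :: l) ⊆ sp₂ (β l)) ∧
        ∀ L M : List Bool, L.length = n + 1 → M.length = n + 1 → L ≠ M →
          γ L ×ˢ γ M ⊆ Dd V β (n + 1) L M := by
    intro n β hβ
    set β₁ : List Bool → Set C := fun L => match L with
      | [] => univ
      | x :: l => if l.length = n then (if x = true then sp₂ (β l) else sp₁ (β l)) else univ
      with hβ₁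
    have hβ₁o : ∀ l, IsOpen (β₁ l) ∧ (β₁ l).Nonempty := by
      intro L
      rcases L with _ | ⟨x, l⟩
      · exact ⟨isOpen_univ, univ_nonempty⟩
      · simp only [hβ₁]
        by_cases hl : l.length = n
        · rw [if_pos hl]
          obtain ⟨a1, a2, a3⟩ := hβ l hl
          obtain ⟨_, _, b3, b4, b5, b6, _⟩ := hspV (β l) a1 a2 a3
          by_cases hx : x = true
          · rw [if_pos hx]
            exact ⟨b4, b6⟩
          · rw [if_neg hx]
            exact ⟨b3, b5⟩
        · rw [if_neg hl]
          exact ⟨isOpen_univ, univ_nonempty⟩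
    have hfin : {l : List Bool | l.length = n + 1}.Finite := List.finite_length_eq Bool (n + 1)
    obtain ⟨γ₁, c1, c2, c3⟩ := shrink (fun L M => Dd V β (n + 1) L M)
      (fun L M => Dd_open V hV β (n + 1) L M)
      ((hfin.toFinset ×ˢ hfin.toFinset).filter fun p => p.1 ≠ p.2)
      (fun p hp => (Finset.mem_filter.mp hp).2) β₁ hβ₁o
    have hcl : ∀ l, ∃ A : Set C, IsClopen A ∧ A.Nonempty ∧ A ⊆ γ₁ l ∩ g n := by
      intro l
      obtain ⟨z, hz1, hz2⟩ := (hgd n).inter_open_nonempty _ (c2 l).1 (c2 l).2
      obtain ⟨A, hA, hzA, hAs⟩ := compact_exists_isClopen_in_isOpen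
        ((c2 l).1.inter (hgo n)) ⟨hz1, hz2⟩
      exact ⟨A, hA, ⟨z, hzA⟩, hAs⟩
    choose γ₂ d1 d2 d3 using hcl
    refine ⟨fun l => if l.length = n + 1 then γ₂ l else β l, ?_, ?_, ?_, ?_⟩
    · intro l hl
      simp only
      rw [if_neg (by omega)]
    · intro l hl
      simp only
      rw [if_pos hl]
      exact ⟨d1 l, d2 l, (d3 l).trans inter_subset_right⟩
    · intro l hl
      simp only [List.length_cons]
      rw [if_pos (by omega), if_pos (by omega)]
      constructor
      · refine (d3 _).trans (inter_subset_left.trans ((c1 _).trans ?_))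
        simp only [hβ₁]
        rw [if_pos hl, if_neg (by decide)]
      · refine (d3 _).trans (inter_subset_left.trans ((c1 _).trans ?_))
        simp only [hβ₁]
        rw [if_pos hl, if_pos trivial]
    · intro L M hL hM hLM
      simp only
      rw [if_pos hL, if_pos hM]
      refine (prod_mono ((d3 L).trans inter_subset_left) ((d3 M).trans inter_subset_left)).trans ?_
      refine c3 (L, M) (Finset.mem_filter.mpr ⟨Finset.mem_product.mpr ⟨?_, ?_⟩, hLM⟩)
      · exact (Set.Finite.mem_toFinset _).mpr hL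
      · exact (Set.Finite.mem_toFinset _).mpr hM
  -- the scheme
  set OK : ℕ → (List Bool → Set C) → Prop := fun n β =>
    ∀ l : List Bool, l.length = n → β l ⊆ U ∧ IsOpen (β l) ∧ (β l).Nonempty with hOK
  set F : ℕ → (List Bool → Set C) → (List Bool → Set C) := fun n β =>
    if h : OK n β then (step n β h).choose else β with hF
  obtain ⟨z₀, hz₀⟩ := hUne
  obtain ⟨B₀, hB₀, hzB₀, hB₀U⟩ := compact_exists_isClopen_in_isOpen hU hz₀
  set σ : ℕ → List Bool → Set C := fun n => Nat.rec (fun _ => B₀) (fun n β => F n β) n with hσ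
  have hσ0 : σ 0 = fun _ => B₀ := rfl
  have hσs : ∀ n, σ (n + 1) = F n (σ n) := fun n => rfl
  have hok : ∀ n, OK n (σ n) := by
    intro n
    induction n with
    | zero =>
      intro l _
      rw [hσ0]
      exact ⟨hB₀U, hB₀.isOpen, ⟨z₀, hzB₀⟩⟩
    | succ n ih =>
      intro l hl
      rw [hσs]
      simp only [hF]
      rw [dif_pos ih]
      obtain ⟨_, e2, e3, _⟩ := (step n (σ n) ih).choose_spec
      rcases l with _ | ⟨x, l⟩
      · simp at hl
      · rw [List.length_cons] at hl
        have hl' : l.length = n := by omega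
        have e2' := e2 (x :: l) (by rw [List.length_cons]; omega)
        refine ⟨?_, e2'.1.isOpen, e2'.2.1⟩
        obtain ⟨a1, a2, a3⟩ := ih l hl'
        obtain ⟨b1, b2, _⟩ := hspV (σ n l) a1 a2 a3
        cases x
        · exact (e3 l hl').1.trans (b1.trans a1)
        · exact (e3 l hl').2.trans (b2.trans a1)
  have hspec := fun n => (step n (σ n) (hok n)).choose_spec
  have hσs' : ∀ n, σ (n + 1) = (step n (σ n) (hok n)).choose := by
    intro n
    rw [hσs]
    simp only [hF]
    rw [dif_pos (hok n)]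
  set β : List Bool → Set C := fun l => σ l.length l with hβ
  have hstab : ∀ m (l : List Bool), l.length ≤ m → σ m l = β l := by
    intro m
    induction m with
    | zero =>
      intro l hl
      have : l.length = 0 := by omega
      rw [hβ]
      simp only
      rw [this]
    | succ m ih =>
      intro l hl
      rcases Nat.lt_or_ge m l.length with h | h
      · have : l.length = m + 1 := by omega
        rw [hβ]
        simp only
        rw [this]
      · rw [hσs', (hspec m).1 l h]
        exact ih l h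
  -- properties of the scheme
  have p1 : ∀ l, β l ⊆ U ∧ IsOpen (β l) ∧ (β l).Nonempty := fun l => hok l.length l rfl
  have p2 : ∀ l, IsClosed (β l) := by
    intro l
    rcases l with _ | ⟨x, l⟩
    · exact hB₀.isClosed
    · have h1 := (hspec l.length).2.1 (x :: l) (List.length_cons)
      have h2 : β (x :: l) = σ (l.length + 1) (x :: l) := rfl
      rw [h2, hσs']
      exact h1.1.isClosed
  have p3 : ∀ x l, β (x :: l) ⊆ g l.length := by
    intro x l
    have h1 := (hspec l.length).2.1 (x :: l) (List.length_cons)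
    have h2 : β (x :: l) = σ (l.length + 1) (x :: l) := rfl
    rw [h2, hσs']
    exact h1.2.2
  have p4 : ∀ l, β (false :: l) ⊆ sp₁ (β l) ∧ β (true :: l) ⊆ sp₂ (β l) := by
    intro l
    have h1 := (hspec l.length).2.2.1 l rfl
    have h2 : ∀ x, β (x :: l) = σ (l.length + 1) (x :: l) := fun x => rfl
    rw [h2, h2, hσs']
    exact h1
  have p5 : ∀ L M : List Bool, L.length = M.length → L ≠ M →
      β L ×ˢ β M ⊆ Dd V β L.length L M := by
    intro L M hlen hne
    obtain ⟨n, hn⟩ : ∃ n, L.length = n + 1 := by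
      rcases L with _ | ⟨x, l⟩
      · exfalso
        apply hne
        exact (List.length_eq_zero_iff.mp hlen.symm).symm
      · exact ⟨l.length, List.length_cons⟩
    have h1 := (hspec n).2.2.2 L M hn (by omega) hne
    rw [← hσs', hstab (n + 1) L (by omega), hstab (n + 1) M (by omega)] at h1
    rw [Dd_congr V (σ n) β (n + 1) n (hstab n) L M (by omega), ← hn] at h1
    exact h1
  have p6 : ∀ x l, β (x :: l) ⊆ β l := by
    intro x l
    obtain ⟨a1, a2, a3⟩ := p1 l
    obtain ⟨b1, b2, _⟩ := hspV (β l) a1 a2 a3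
    cases x
    · exact (p4 l).1.trans b1
    · exact (p4 l).2.trans b2
  have hne : ∀ a : C, (⋂ n, β (pre a n)).Nonempty := by
    intro a
    refine IsCompact.nonempty_iInter_of_sequence_nonempty_isCompact_isClosed
      (fun n => β (pre a n)) (fun n => p6 _ _) (fun n => (p1 _).2.2) (p2 (pre a 0)).isCompact
      (fun n => p2 _)
  choose e he using hne
  have he' : ∀ a n, e a ∈ β (pre a n) := fun a n => mem_iInter.mp (he a) n
  refine ⟨e, fun a => ⟨(p1 (pre a 0)).1 (he' a 0), hgG (mem_iInter.mpr fun n => ?_)⟩, ?_⟩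
  · have h1 := p3 (a n) (pre a n) (he' a (n + 1))
    rwa [pre_length] at h1
  · intro a b hab
    obtain ⟨n, hn1, hn2, hn3⟩ := hab
    have hpre : ∀ m, m ≤ n → pre a m = pre b m := by
      intro m
      induction m with
      | zero => intro _; rfl
      | succ m ih =>
        intro hm
        rw [pre, pre, ih (by omega), hn1 m (by omega)]
    have hprene : ∀ k, pre a (n + 1 + k) ≠ pre b (n + 1 + k) := by
      intro k
      induction k with
      | zero =>
        rw [add_zero, pre, pre, hn2, hn3]
        intro h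
        have := List.head_eq_of_cons_eq h
        exact absurd this (by decide)
      | succ k ih =>
        intro h
        rw [← add_assoc, pre, pre] at h
        exact ih (List.tail_eq_of_cons_eq h)
    have hDd : ∀ N k, Dd V β N (pre a (n + 1 + k)) (pre b (n + 1 + k)) =
        V (β (pre a n)) N := by
      intro N k
      induction k with
      | zero =>
        rw [add_zero, pre, pre, ← hpre n le_rfl, Dd_eq]
      | succ k ih =>
        rw [← add_assoc, pre, pre, Dd_ne _ _ _ _ _ _ _ (hprene k)]
        exact ih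
    obtain ⟨a1, a2, a3⟩ := p1 (pre a n)
    obtain ⟨_, _, _, _, _, _, b7⟩ := hspV (β (pre a n)) a1 a2 a3
    refine b7 (e a, e b) (mem_iInter.mpr fun j => ?_) ?_ ?_
    · have h1 := p5 (pre a (n + 1 + j)) (pre b (n + 1 + j)) (by rw [pre_length, pre_length])
        (hprene j)
      rw [hDd, pre_length] at h1
      exact hVa _ (by omega) (h1 ⟨he' a _, he' b _⟩)
    · have h1 := he' a (n + 1)
      rw [pre, hn2] at h1
      exact (p4 _).1 h1
    · have h1 := he' b (n + 1)
      rw [pre, hn3, ← hpre n le_rfl] at h1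
      exact (p4 _).2 h1

end Pool.Agent.H32.BO
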